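import Pool.Agent.Helper70.GB.Types
import Pool.Agent.Helper15.GB.Top

open Set MeasureTheory Filter Topology

namespace GB

/-! ## M9 : the sequence of levels, and the bodies -/

/-- The recursion, with the existence of one good level as a hypothesis. -/
theorem exists_levels_of (a₁ a₂ : ℝ) (thr : ℕ → Set ℝ → ℕ) (thr2 : ℝ → ℕ)
    (κ : ℕ → ℕ → ℕ) (e : ℕ → ℝ) (μ₀ : ℝ)
    (hex : ∀ (i : ℕ) (ε : ℝ), 0 < ε → ∀ θ : ℕ, ∃ X : Lev, Good a₁ a₂ thr2 κ e μ₀ i ε θ X) :
    ∃ (X : ℕ → Lev) (ε : ℕ → ℝ) (θ : ℕ → ℕ), Levels a₁ a₂ thr thr2 κ e μ₀ X ε θ := by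
  classical
  have H : ∀ (i : ℕ) (ε : {ε : ℝ // 0 < ε}) (θ : ℕ),
      ∃ X : Lev, Good a₁ a₂ thr2 κ e μ₀ i ε.1 θ X := fun i ε θ =>
    hex i ε.1 ε.2 θ
  choose F hF using H
  let s : ℕ → {ε : ℝ // 0 < ε} × ℕ := fun n => Nat.rec (⟨1 / 2, by norm_num⟩, 0)
    (fun i p => (⟨(F i p.1 p.2).ε', (hF i p.1 p.2).ε'pos⟩, max p.2 (thr i (F i p.1 p.2).G))) n
  have hmono : ∀ i j, i ≤ j → (s i).2 ≤ (s j).2 := by
    intro i j hij
    induction j, hij using Nat.le_induction with
    | base => exact le_rfl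
    | succ j _ ih => exact ih.trans (le_max_left _ _)
  refine ⟨fun i => F i (s i).1 (s i).2, fun i => (s i).1.1, fun i => (s i).2, rfl, fun i => rfl,
    fun i => hF _ _ _, fun i j hij => ?_⟩
  have h1 : thr j (F j (s j).1 (s j).2).G ≤ (s (j + 1)).2 := le_max_right _ _
  exact h1.trans (hmono _ _ hij)

section

variable {a₁ a₂ : ℝ} {thr : ℕ → Set ℝ → ℕ} {thr2 : ℝ → ℕ} {κ : ℕ → ℕ → ℕ}
    {e : ℕ → ℝ} {μ₀ : ℝ} {X : ℕ → Lev} {ε : ℕ → ℝ} {θ : ℕ → ℕ}

private theorem Levels.εpos (h : Levels a₁ a₂ thr thr2 κ e μ₀ X ε θ) (i : ℕ) : 0 < ε i := by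
  have h1 := (h.good i).wpos
  have h2 := (h.good i).wε
  linarith

private theorem Levels.εstep (h : Levels a₁ a₂ thr thr2 κ e μ₀ X ε θ) (i : ℕ) :
    ε (i + 1) ≤ 2 * (X i).w := by
  rw [h.εsucc]
  exact (h.good i).ε'w

private theorem Levels.εquarter (h : Levels a₁ a₂ thr thr2 κ e μ₀ X ε θ) (i : ℕ) :
    4 * ε (i + 1) ≤ ε i := by
  have h1 := h.εstep i
  have h2 := (h.good i).wε
  linarith

private theorem Levels.εanti (h : Levels a₁ a₂ thr thr2 κ e μ₀ X ε θ) : Antitone ε :=
  antitone_nat_of_succ_le fun i => by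
    have h1 := h.εquarter i
    have h2 := h.εpos (i + 1)
    linarith

private theorem Levels.εhalf (h : Levels a₁ a₂ thr thr2 κ e μ₀ X ε θ) (i : ℕ) : ε i ≤ 1 / 2 := by
  have := h.εanti (Nat.zero_le i)
  rw [h.ε0] at this
  exact this

/-- Supports of different levels, modulo `1`, are disjoint. -/
theorem Levels.unique (h : Levels a₁ a₂ thr thr2 κ e μ₀ X ε θ) (x : ℝ) (i j : ℕ)
    (hi : cob a₁ (X i).G x ≠ 0) (hj : cob a₁ (X j).G x ≠ 0) : i = j := by
  have key : ∀ i j, cob a₁ (X i).G x ≠ 0 → cob a₁ (X j).G x ≠ 0 → ¬ i < j := by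
    intro i j hi hj hij
    obtain ⟨u, hu1, hu2⟩ := (h.good i).supp x hi
    obtain ⟨u', hu1', hu2'⟩ := (h.good j).supp x hj
    have h1 := (h.good i).wpos
    have h2 := (h.good i).wε
    have h1' := (h.good j).wpos
    have h2' := (h.good j).wε
    have h3 : ε j ≤ 2 * (X i).w := (h.εanti hij).trans (h.εstep i)
    have h4 := h.εhalf i
    have h5 : (u' : ℝ) < u + 1 := by linarith
    have h6 : (u : ℝ) < u' + 1 := by linarith
    have h7 : u' < u + 1 := by exact_mod_cast h5
    have h8 : u < u' + 1 := by exact_mod_cast h6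
    have h9 : u = u' := by omega
    rw [h9] at hu1 hu2
    linarith
  rcases lt_trichotomy i j with hij | hij | hij
  · exact absurd hij (key i j hi hj)
  · exact hij
  · exact absurd hij (key j i hj hi)

/-- The part of one level in the body. -/
private def Epart (a₁ : ℝ) (X : ℕ → Lev) (σ : ℤ) (i : ℕ) : Set ℝ :=
  {x | cob a₁ (X i).G x = σ} ∩ Ioo 0 1

private theorem PM_eq (a₁ : ℝ) (X : ℕ → Lev) (σ : ℤ) : PM a₁ X σ = ⋃ i, Epart a₁ X σ i := by
  ext x
  simp only [PM, Epart, Set.mem_ofPred_eq, Set.mem_iUnion, Set.mem_inter_iff]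
  constructor
  · rintro ⟨h1, i, h2⟩
    exact ⟨i, h2, h1⟩
  · rintro ⟨i, h2, h1⟩
    exact ⟨h1, i, h2⟩

private theorem Levels.Epart_sub (h : Levels a₁ a₂ thr thr2 κ e μ₀ X ε θ) (σ : ℤ) (hσ : σ ≠ 0) (i : ℕ) :
    Epart a₁ X σ i ⊆ Ioo (4 * (X i).w) (8 * (X i).w) := by
  rintro x ⟨hx1, hx2, hx3⟩
  rw [Set.mem_ofPred_eq] at hx1
  obtain ⟨u, hu1, hu2⟩ := (h.good i).supp x (by rw [hx1]; exact hσ)
  have h1 := (h.good i).wpos
  have h2 := (h.good i).wε
  have h4 := h.εhalf i
  have h5 : (-1 : ℝ) < u := by linarith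
  have h6 : (u : ℝ) < 1 := by linarith
  have h7 : (-1 : ℤ) < u := by exact_mod_cast h5
  have h8 : u < 1 := by exact_mod_cast h6
  have h9 : u = 0 := by omega
  rw [h9] at hu1 hu2
  constructor
  · simpa using hu1
  · simpa using hu2

private theorem regular_Ioo (a b : ℝ) (h : a < b) : interior (closure (Ioo a b)) = Ioo a b := by
  rw [closure_Ioo h.ne, interior_Icc]

private theorem null_frontier_Ioo (a b : ℝ) (h : a < b) : volume (frontier (Ioo a b)) = 0 := by
  rw [frontier_Ioo h]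
  exact (Set.toFinite _).measure_zero _

private theorem null_frontier_inter {A B : Set ℝ} (hA : volume (frontier A) = 0)
    (hB : volume (frontier B) = 0) : volume (frontier (A ∩ B)) = 0 := by
  refine measure_mono_null (frontier_inter_subset A B) ?_
  refine measure_union_null ?_ ?_
  · exact measure_mono_null Set.inter_subset_left hA
  · exact measure_mono_null Set.inter_subset_right hB

theorem Levels.PM_reg (h : Levels a₁ a₂ thr thr2 κ e μ₀ X ε θ) (σ : ℤ) (hσ : σ = 1 ∨ σ = -1) :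
    interior (closure (PM a₁ X σ)) = PM a₁ X σ ∧ volume (frontier (PM a₁ X σ)) = 0 := by
  have hσ0 : σ ≠ 0 := by rcases hσ with rfl | rfl <;> norm_num
  have hreg : ∀ i, interior (closure {x | cob a₁ (X i).G x = σ}) = {x | cob a₁ (X i).G x = σ} ∧
      volume (frontier {x | cob a₁ (X i).G x = σ}) = 0 := by
    intro i
    rcases hσ with rfl | rfl
    · exact ⟨(h.good i).posreg, (h.good i).posfr⟩
    · exact ⟨(h.good i).negreg, (h.good i).negfr⟩
  have hcl : ∀ i, closure (Epart a₁ X σ i) ⊆ Icc (4 * (X i).w) (8 * (X i).w) := fun i =>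
    closure_minimal ((h.Epart_sub σ hσ0 i).trans Ioo_subset_Icc_self) isClosed_Icc
  rw [PM_eq]
  apply top_layers (Epart a₁ X σ) (fun k => Ioo (-ε k) (ε k))
  · intro k
    exact top_inter _ _ (hreg k).1 (regular_Ioo 0 1 one_pos)
  · intro k
    exact null_frontier_inter (hreg k).2 (null_frontier_Ioo 0 1 one_pos)
  · intro k x hx
    have h1 := hcl k hx
    have h2 := (h.good k).wpos
    have h3 := (h.good k).wε
    exact ⟨by linarith [h1.1], by linarith [h1.2]⟩
  · intro k
    rw [Set.disjoint_left]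
    intro x hx hx'
    have h1 := hcl k hx
    have h2 := (h.good k).wpos
    have h3 := h.εstep k
    have h4 := hx'.2
    linarith [h1.1]
  · intro k
    have h1 := h.εquarter k
    have h2 := h.εpos (k + 1)
    refine (closure_mono Ioo_subset_Icc_self).trans ?_
    rw [isClosed_Icc.closure_eq]
    intro x hx
    exact ⟨by linarith [hx.1], by linarith [hx.2]⟩
  · refine measure_mono_null (t := {0}) ?_ (by simp)
    intro x hx
    rw [Set.mem_iInter] at hx
    rw [Set.mem_singleton_iff]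
    by_contra hne
    have hpos : 0 < |x| := abs_pos.2 hne
    have hbound : ∀ k, ε k * 4 ^ k ≤ 1 / 2 := by
      intro k
      induction k with
      | zero => rw [h.ε0]; norm_num
      | succ k ih =>
        have h1 := h.εquarter k
        have h2 : (0 : ℝ) < 4 ^ k := by positivity
        rw [pow_succ]
        nlinarith
    have hlt : ∀ k, |x| * 4 ^ k < 1 := by
      intro k
      have h1 : |x| < ε k := abs_lt.2 ⟨(hx k).1, (hx k).2⟩
      have h2 : (0 : ℝ) < 4 ^ k := by positivity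
      have h3 := hbound k
      nlinarith
    obtain ⟨k, hk⟩ := pow_unbounded_of_one_lt (1 / |x|) (by norm_num : (1 : ℝ) < 4)
    have h1 := hlt k
    rw [div_lt_iff₀ hpos] at hk
    linarith

private theorem body_geom_aux (h : Levels a₁ a₂ thr thr2 κ e μ₀ X ε θ) (σ : ℤ) (hσ : σ = 1 ∨ σ = -1) :
    IsGeomBody (body a₁ X σ) := by
  obtain ⟨hr, hf⟩ := h.PM_reg σ hσ
  let τ : ℝ ≃ₜ ℝ := Homeomorph.addRight (2 : ℝ)
  have hτ : (fun x : ℝ => x + 2) = τ := rfl
  have hPsub : PM a₁ X σ ⊆ Ioo 0 1 := fun x hx => hx.1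
  have hIsub : (fun x : ℝ => x + 2) '' PM a₁ X σ ⊆ Ioo 2 3 := by
    rintro _ ⟨x, hx, rfl⟩
    have := hPsub hx
    exact ⟨by simpa using this.1, by
      have := this.2
      simp only
      linarith⟩
  have hr' : interior (closure ((fun x : ℝ => x + 2) '' PM a₁ X σ)) =
      (fun x : ℝ => x + 2) '' PM a₁ X σ := by
    rw [hτ, ← τ.image_closure, ← τ.image_interior, hr]
  have hf' : volume (frontier ((fun x : ℝ => x + 2) '' PM a₁ X σ)) = 0 := by
    rw [hτ, ← τ.image_frontier]
    have : τ '' frontier (PM a₁ X σ) = (fun x => x + 2) '' frontier (PM a₁ X σ) := rfl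
    rw [this, Set.image_add_right, measure_preimage_add_right]
    exact hf
  unfold body
  refine ⟨?_, ?_, ?_⟩
  · exact (Metric.isBounded_Ioo 0 1).union ((Metric.isBounded_Ioo 2 3).subset hIsub)
  · have h2 := top_finite (fun b : Bool => if b then Ioo (0 : ℝ) 1 else
      (fun x : ℝ => x + 2) '' PM a₁ X σ) (by
        intro b
        cases b
        · simpa using hr'
        · simpa using regular_Ioo 0 1 one_pos) (by
        have hd : Disjoint (closure (Ioo (0 : ℝ) 1))
            (closure ((fun x : ℝ => x + 2) '' PM a₁ X σ)) := by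
          refine Disjoint.mono (closure_minimal Ioo_subset_Icc_self isClosed_Icc)
            (closure_minimal (hIsub.trans Ioo_subset_Icc_self) isClosed_Icc) ?_
          rw [Set.disjoint_left]
          intro x hx hx'
          linarith [hx.2, hx'.1]
        intro b b' hbb
        cases b <;> cases b'
        · exact absurd rfl hbb
        · simpa using hd.symm
        · simpa using hd
        · exact absurd rfl hbb)
    have h3 : (⋃ b : Bool, (if b then Ioo (0 : ℝ) 1 else (fun x : ℝ => x + 2) '' PM a₁ X σ)) =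
        Ioo (0 : ℝ) 1 ∪ (fun x => x + 2) '' PM a₁ X σ := by
      rw [Set.union_eq_iUnion]
      apply Set.iUnion_congr
      intro b
      cases b <;> simp
    rw [h3] at h2
    exact h2
  · refine measure_mono_null (frontier_union_subset _ _) ?_
    refine measure_union_null ?_ ?_
    · exact measure_mono_null Set.inter_subset_left (null_frontier_Ioo 0 1 one_pos)
    · exact measure_mono_null Set.inter_subset_right hf'

theorem body_geom (h : Levels a₁ a₂ thr thr2 κ e μ₀ X ε θ) :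
    IsGeomBody (body a₁ X 1) ∧ IsGeomBody (body a₁ X (-1)) :=
  ⟨body_geom_aux h 1 (Or.inl rfl), body_geom_aux h (-1) (Or.inr rfl)⟩

end

end GB
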